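import Pool.Agent.Lib.MP_975af5_gt.Defs

/-!
The space `ω*` and the double-limit lemmas for continuous maps from products of compact spaces
to `ω*`.
-/

set_option autoImplicit false
set_option linter.all false

open Filter Topology Set

namespace Pool.Agent.Lib.MP_975af5_gt

/-- basic clopen set -/
def st (B : Set ℕ) : Set OmegaStar := {p | B ∈ p.1}

theorem mem_st {B : Set ℕ} {p : OmegaStar} : p ∈ st B ↔ B ∈ p.1 := Iff.rfl

theorem isOpen_st (B : Set ℕ) : IsOpen (st B) :=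
  (ultrafilter_isOpen_basic B).preimage continuous_subtype_val

theorem isClosed_st (B : Set ℕ) : IsClosed (st B) :=
  (ultrafilter_isClosed_basic B).preimage continuous_subtype_val

theorem st_compl (B : Set ℕ) : (st B)ᶜ = st Bᶜ := by
  ext p
  simp only [mem_compl_iff, mem_st]
  exact (Ultrafilter.compl_mem_iff_notMem).symm

theorem st_inter (A B : Set ℕ) : st (A ∩ B) = st A ∩ st B := by
  ext p
  simp only [mem_inter_iff, mem_st]
  exact inter_mem_iff

theorem st_mono {A B : Set ℕ} (h : A ⊆ B) : st A ⊆ st B := fun p hp => mem_of_superset hp h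

theorem exists_st_of_nhds {p : OmegaStar} {U : Set OmegaStar} (hU : U ∈ 𝓝 p) :
    ∃ B, p ∈ st B ∧ st B ⊆ U := by
  rw [nhds_subtype_eq_comap, mem_comap] at hU
  obtain ⟨V, hV, hVU⟩ := hU
  rw [ultrafilterBasis_is_basis.mem_nhds_iff] at hV
  obtain ⟨_, ⟨B, rfl⟩, hB, hBV⟩ := hV
  exact ⟨B, hB, fun q hq => hVU (hBV hq)⟩

theorem st_mem_nhds {p : OmegaStar} {B : Set ℕ} (h : p ∈ st B) : st B ∈ 𝓝 p :=
  (isOpen_st B).mem_nhds h

theorem exists_sep {p q : OmegaStar} (h : p ≠ q) : ∃ B, p ∈ st B ∧ q ∉ st B := by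
  obtain ⟨B, hB, hB2⟩ := exists_st_of_nhds (isOpen_compl_singleton.mem_nhds (show p ∈ ({q}ᶜ : Set _) from h))
  exact ⟨B, hB, fun hq => hB2 hq rfl⟩

instance : CompactSpace OmegaStar := by
  have : IsClosed {p : Ultrafilter ℕ | (p : Filter ℕ) ≤ Filter.cofinite} := by
    have h : {p : Ultrafilter ℕ | (p : Filter ℕ) ≤ Filter.cofinite} =
        ⋂ s ∈ {s : Set ℕ | sᶜ.Finite}, {p : Ultrafilter ℕ | s ∈ p} := by
      ext p
      simp only [mem_setOf_eq, mem_iInter]
      rfl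
    rw [h]
    exact isClosed_biInter fun s _ => ultrafilter_isClosed_basic s
  exact isCompact_iff_compactSpace.1 this.isCompact

instance : TotallyDisconnectedSpace OmegaStar := inferInstance

section limits

variable {K L : Type*} [TopologicalSpace K] [TopologicalSpace L] [CompactSpace K] [CompactSpace L]
variable {f : K × L → OmegaStar}

theorem exists_limits (c : ℕ → K) (e : ℕ → L) :
    ∃ a b, Tendsto c (hyperfilter ℕ : Filter ℕ) (𝓝 a) ∧ Tendsto e (hyperfilter ℕ : Filter ℕ) (𝓝 b) := by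
  obtain ⟨a, -, ha⟩ := isCompact_univ.ultrafilter_le_nhds ((hyperfilter ℕ).map c) (by simp)
  obtain ⟨b, -, hb⟩ := isCompact_univ.ultrafilter_le_nhds ((hyperfilter ℕ).map e) (by simp)
  exact ⟨a, b, ha, hb⟩

theorem hyper_ge (n : ℕ) : ∀ᶠ m in (hyperfilter ℕ : Filter ℕ), n < m :=
  Nat.hyperfilter_le_atTop (eventually_gt_atTop n)

theorem upper_lim (hf : Continuous f) {c : ℕ → K} {e : ℕ → L} {a : K} {b : L}
    (hc : Tendsto c (hyperfilter ℕ : Filter ℕ) (𝓝 a))
    (he : Tendsto e (hyperfilter ℕ : Filter ℕ) (𝓝 b)) {C : Set OmegaStar} (hC : IsClosed C)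
    (h : ∀ i j, i < j → f (c i, e j) ∈ C) : f (a, b) ∈ C := by
  have h1 : ∀ i, f (c i, b) ∈ C := by
    intro i
    have h2 : Tendsto (fun j => f (c i, e j)) (hyperfilter ℕ : Filter ℕ) (𝓝 (f (c i, b))) :=
      (hf.tendsto _).comp (tendsto_const_nhds.prodMk_nhds he)
    exact hC.mem_of_tendsto h2 ((hyper_ge i).mono fun j hj => h i j hj)
  have h3 : Tendsto (fun i => f (c i, b)) (hyperfilter ℕ : Filter ℕ) (𝓝 (f (a, b))) :=
    (hf.tendsto _).comp (hc.prodMk_nhds tendsto_const_nhds)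
  exact hC.mem_of_tendsto h3 (Eventually.of_forall h1)

theorem lower_lim (hf : Continuous f) {c : ℕ → K} {e : ℕ → L} {a : K} {b : L}
    (hc : Tendsto c (hyperfilter ℕ : Filter ℕ) (𝓝 a))
    (he : Tendsto e (hyperfilter ℕ : Filter ℕ) (𝓝 b)) {C : Set OmegaStar} (hC : IsClosed C)
    (h : ∀ i j, j < i → f (c i, e j) ∈ C) : f (a, b) ∈ C := by
  have h1 : ∀ j, f (a, e j) ∈ C := by
    intro j
    have h2 : Tendsto (fun i => f (c i, e j)) (hyperfilter ℕ : Filter ℕ) (𝓝 (f (a, e j))) :=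
      (hf.tendsto _).comp (hc.prodMk_nhds tendsto_const_nhds)
    exact hC.mem_of_tendsto h2 ((hyper_ge j).mono fun i hi => h i j hi)
  have h3 : Tendsto (fun j => f (a, e j)) (hyperfilter ℕ : Filter ℕ) (𝓝 (f (a, b))) :=
    (hf.tendsto _).comp (tendsto_const_nhds.prodMk_nhds he)
  exact hC.mem_of_tendsto h3 (Eventually.of_forall h1)

theorem diag_lim (hf : Continuous f) {c : ℕ → K} {e : ℕ → L} {a : K} {b : L}
    (hc : Tendsto c (hyperfilter ℕ : Filter ℕ) (𝓝 a))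
    (he : Tendsto e (hyperfilter ℕ : Filter ℕ) (𝓝 b)) {C : Set OmegaStar} (hC : IsClosed C)
    (h : ∀ i, f (c i, e i) ∈ C) : f (a, b) ∈ C := by
  have h3 : Tendsto (fun i => f (c i, e i)) (hyperfilter ℕ : Filter ℕ) (𝓝 (f (a, b))) :=
    (hf.tendsto _).comp (hc.prodMk_nhds he)
  exact hC.mem_of_tendsto h3 (Eventually.of_forall h)

/-- upper triangle against diagonal -/
theorem no_upper_diag (hf : Continuous f) (c : ℕ → K) (e : ℕ → L) (B : Set ℕ)
    (h1 : ∀ i j, i < j → f (c i, e j) ∈ st B) (h2 : ∀ i, f (c i, e i) ∉ st B) : False := by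
  obtain ⟨a, b, hc, he⟩ := exists_limits c e
  have h3 := upper_lim hf hc he (isClosed_st B) h1
  have h4 := diag_lim hf hc he (C := (st B)ᶜ) (isOpen_st B).isClosed_compl h2
  exact h4 h3

theorem no_lower_diag (hf : Continuous f) (c : ℕ → K) (e : ℕ → L) (B : Set ℕ)
    (h1 : ∀ i j, j < i → f (c i, e j) ∈ st B) (h2 : ∀ i, f (c i, e i) ∉ st B) : False := by
  obtain ⟨a, b, hc, he⟩ := exists_limits c e
  have h3 := lower_lim hf hc he (isClosed_st B) h1
  have h4 := diag_lim hf hc he (C := (st B)ᶜ) (isOpen_st B).isClosed_compl h2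
  exact h4 h3

theorem no_upper_diag' (hf : Continuous f) (c : ℕ → K) (e : ℕ → L) (B : Set ℕ)
    (h1 : ∀ i j, i < j → f (c i, e j) ∉ st B) (h2 : ∀ i, f (c i, e i) ∈ st B) : False := by
  obtain ⟨a, b, hc, he⟩ := exists_limits c e
  have h3 := upper_lim hf hc he (C := (st B)ᶜ) (isOpen_st B).isClosed_compl h1
  have h4 := diag_lim hf hc he (isClosed_st B) h2
  exact h3 h4

theorem no_lower_diag' (hf : Continuous f) (c : ℕ → K) (e : ℕ → L) (B : Set ℕ)
    (h1 : ∀ i j, j < i → f (c i, e j) ∉ st B) (h2 : ∀ i, f (c i, e i) ∈ st B) : False := by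
  obtain ⟨a, b, hc, he⟩ := exists_limits c e
  have h3 := lower_lim hf hc he (C := (st B)ᶜ) (isOpen_st B).isClosed_compl h1
  have h4 := diag_lim hf hc he (isClosed_st B) h2
  exact h3 h4

theorem no_upper_lower (hf : Continuous f) (c : ℕ → K) (e : ℕ → L) (B : Set ℕ)
    (h1 : ∀ i j, i < j → f (c i, e j) ∈ st B) (h2 : ∀ i j, j < i → f (c i, e j) ∉ st B) :
    False := by
  obtain ⟨a, b, hc, he⟩ := exists_limits c e
  have h3 := upper_lim hf hc he (isClosed_st B) h1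
  have h4 := lower_lim hf hc he (C := (st B)ᶜ) (isOpen_st B).isClosed_compl h2
  exact h4 h3

end limits

/-- infinite Ramsey theorem for pairs and two colours -/
theorem ramsey (χ : ℕ → ℕ → Prop) :
    ∃ φ : ℕ → ℕ, StrictMono φ ∧ ((∀ m n, m < n → χ (φ m) (φ n)) ∨ (∀ m n, m < n → ¬ χ (φ m) (φ n))) := by
  have key : ∀ χ : ℕ → ℕ → Prop, (∀ᶠ i in (hyperfilter ℕ : Filter ℕ), ∀ᶠ j in (hyperfilter ℕ : Filter ℕ), χ i j) →
      ∃ φ : ℕ → ℕ, StrictMono φ ∧ (∀ m n, m < n → χ (φ m) (φ n)) := by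
    intro χ h
    obtain ⟨φ, -, hφ⟩ := exists_seq_of_forall_finset_exists
      (fun i : ℕ => ∀ᶠ j in (hyperfilter ℕ : Filter ℕ), χ i j) (fun i j => i < j ∧ χ i j)
      (by
        intro s hs
        have h1 : ∀ᶠ j in (hyperfilter ℕ : Filter ℕ), ∀ i ∈ s, i < j ∧ χ i j := by
          rw [Filter.eventually_all_finset]
          intro i hi
          exact (hyper_ge i).and (hs i hi)
        exact (h.and h1).exists)
    exact ⟨φ, fun m n hmn => (hφ m n hmn).1, fun m n hmn => (hφ m n hmn).2⟩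
  by_cases h : ∀ᶠ i in (hyperfilter ℕ : Filter ℕ), ∀ᶠ j in (hyperfilter ℕ : Filter ℕ), χ i j
  · obtain ⟨φ, h1, h2⟩ := key χ h
    exact ⟨φ, h1, Or.inl h2⟩
  · have h' : ∀ᶠ i in (hyperfilter ℕ : Filter ℕ), ∀ᶠ j in (hyperfilter ℕ : Filter ℕ), ¬ χ i j := by
      rw [← Ultrafilter.eventually_not] at h
      refine h.mono fun i hi => ?_
      rwa [← Ultrafilter.eventually_not] at hi
    obtain ⟨φ, h1, h2⟩ := key (fun i j => ¬ χ i j) h'
    exact ⟨φ, h1, Or.inr h2⟩

end Pool.Agent.Lib.MP_975af5_gt
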