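import Mathlib

set_option autoImplicit false

namespace Pool.Agent.Lib.MP_975af5_gt

/-- The Cech-Stone remainder `ω* = βω ∖ ω` of the countable discrete space `ω`: the nonprincipal
ultrafilters on `ℕ`, with the subspace topology of the space `Ultrafilter ℕ` of all ultrafilters
(whose basic open sets are `{u | s ∈ u}`, `s ⊆ ℕ`). -/
abbrev OmegaStar : Type := {p : Ultrafilter ℕ // (p : Filter ℕ) ≤ Filter.cofinite}

end Pool.Agent.Lib.MP_975af5_gt
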