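import Pool.Agent.Lib.MP_975af5_gt.Local

/-!
Homeomorphisms of `C(ω*, ω*)` respect the orbits of constant maps.
-/

set_option autoImplicit false
set_option linter.all false

open Filter Topology Set

namespace Pool.Agent.Lib.MP_975af5_gt

theorem local_pi {ι : Type*} [Finite ι] [Nonempty ι] [DecidableEq ι] {T : (ι → OmegaStar) → OmegaStar}
    (hT : Continuous T) (p : ι → OmegaStar) :
    ∃ i, ∀ᶠ d in 𝓝 p, T d = T (Function.update p i (d i)) := by
  classical
  have := Fintype.ofFinite ι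
  have h1 : ∀ i, (∀ᶠ d in 𝓝 p, T d = T (Function.update d i (p i))) ∨
      (∀ᶠ d in 𝓝 p, T d = T (Function.update p i (d i))) := by
    intro i
    have hf : Continuous fun q : (ι → OmegaStar) × OmegaStar => T (Function.update q.1 i q.2) :=
      hT.comp (Continuous.update continuous_fst i continuous_snd)
    have hd : Tendsto (fun d : ι → OmegaStar => (d, d i)) (𝓝 p) (𝓝 (p, p i)) := by
      have : Continuous fun d : ι → OmegaStar => (d, d i) := by fun_prop
      exact this.continuousAt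
    rcases local_elementary hf p (p i) with h | h
    · left
      filter_upwards [hd.eventually h] with d hd
      simpa using hd
    · right
      filter_upwards [hd.eventually h] with d hd
      simpa using hd
  by_cases h2 : ∃ i, ∀ᶠ d in 𝓝 p, T d = T (Function.update p i (d i))
  · exact h2
  · have h3 : ∀ i, ∀ᶠ d in 𝓝 p, T d = T (Function.update d i (p i)) := by
      intro i
      rcases h1 i with h | h
      · exact h
      · exact absurd ⟨i, h⟩ h2
    have h4 : ∀ s : Finset ι, ∀ᶠ d in 𝓝 p, T d = T (s.piecewise p d) := by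
      intro s
      induction s using Finset.induction_on with
      | empty => simp
      | insert i s hi ih =>
        have hc : Tendsto (fun d : ι → OmegaStar => s.piecewise p d) (𝓝 p) (𝓝 p) := by
          have h5 : Continuous fun d : ι → OmegaStar => s.piecewise p d := by
            refine continuous_pi fun j => ?_
            by_cases hj : j ∈ s
            · simp only [Finset.piecewise, hj, if_true]
              exact continuous_const
            · simp only [Finset.piecewise, hj, if_false]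
              exact continuous_apply j
          have h6 := h5.tendsto p
          have h7 : s.piecewise p p = p := by
            funext j
            simp [Finset.piecewise]
          rwa [h7] at h6
        filter_upwards [ih, hc.eventually (h3 i)] with d h5 h6
        rw [h5, h6, Finset.piecewise_insert]
    have h5 : ∀ᶠ d in 𝓝 p, T d = T p := by
      filter_upwards [h4 Finset.univ] with d hd
      simpa using hd
    obtain ⟨i⟩ := ‹Nonempty ι›
    refine absurd ⟨i, ?_⟩ h2
    have h6 : Tendsto (fun d : ι → OmegaStar => Function.update p i (d i)) (𝓝 p) (𝓝 p) := by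
      have : Continuous fun d : ι → OmegaStar => Function.update p i (d i) :=
        Continuous.update continuous_const i (continuous_apply i)
      have h7 := this.tendsto p
      simpa using h7
    filter_upwards [h5, h6.eventually h5] with d h7 h8
    rw [h7, h8]

/-- the constant map -/
def K (x : OmegaStar) : C(OmegaStar, OmegaStar) := ContinuousMap.const _ x

theorem K_apply (x e : OmegaStar) : K x e = x := rfl

theorem continuous_K : Continuous K := ContinuousMap.continuous_const'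

theorem exists_partition {F : OmegaStar × OmegaStar → OmegaStar} (hF : Continuous F)
    {x y : OmegaStar} (hx : ∀ e, F (x, e) = y) :
    ∃ (n : ℕ) (ε : Fin n → OmegaStar) (q : OmegaStar → Fin n), (∀ e, ∀ᶠ e' in 𝓝 e, q e' = q e) ∧
      ∀ᶠ c in 𝓝 x, ∀ e, F (c, e) = F (c, ε (q e)) := by
  have h1 : ∀ e, ∃ P ∈ 𝓝 x, ∃ U : Set OmegaStar, IsOpen U ∧ e ∈ U ∧
      ∀ c ∈ P, ∀ e' ∈ U, F (c, e') = F (c, e) := by
    intro e
    have h2 : ∀ᶠ p : OmegaStar × OmegaStar in 𝓝 (x, e), F p = F (p.1, e) := by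
      rcases local_elementary hF x e with h | h
      · exact h
      · have h3 : ∀ᶠ p : OmegaStar × OmegaStar in 𝓝 (x, e), F p = y := by
          filter_upwards [h] with p hp
          rw [hp, hx]
        have h4 : Tendsto (fun p : OmegaStar × OmegaStar => (p.1, e)) (𝓝 (x, e)) (𝓝 (x, e)) := by
          have : Continuous fun p : OmegaStar × OmegaStar => (p.1, e) := by fun_prop
          exact this.tendsto (x, e)
        filter_upwards [h3, h4.eventually h3] with p h5 h6
        rw [h5, h6]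
    rw [nhds_prod_eq, eventually_prod_iff] at h2
    obtain ⟨pa, hpa, pb, hpb, h3⟩ := h2
    obtain ⟨U, hU, hUo, heU⟩ := eventually_nhds_iff.1 hpb
    exact ⟨{c | pa c}, hpa, U, hUo, heU, fun c hc e' he' => h3 hc (hU e' he')⟩
  choose P hP U hUo heU hPU using h1
  have hcov : TopologicalSpace.IsOpenCover fun e => (⟨U e, hUo e⟩ : TopologicalSpace.Opens OmegaStar) := by
    rw [TopologicalSpace.IsOpenCover, eq_top_iff]
    intro e _
    simp only [TopologicalSpace.Opens.iSup_mk, TopologicalSpace.Opens.coe_mk]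
    exact mem_iUnion.2 ⟨e, heU e⟩
  obtain ⟨n, V, hV1, hV2, hV3⟩ := hcov.exists_finite_nonempty_disjoint_clopen_cover
  have h4 : ∀ e, ∃ j, e ∈ V j := by
    intro e
    have := hV2 (mem_univ e)
    simpa using this
  choose q hq using h4
  choose ε hε using fun j => (hV1 j).2
  refine ⟨n, ε, q, ?_, ?_⟩
  · intro e
    filter_upwards [(V (q e)).isClopen.isOpen.mem_nhds (hq e)] with e' he'
    by_contra hne
    have := hV3 hne
    simp only [Function.onFun] at this
    have h5 : (e' : OmegaStar) ∈ (V (q e') ⊓ V (q e) : TopologicalSpace.Clopens OmegaStar) :=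
      ⟨hq e', he'⟩
    rw [this.eq_bot] at h5
    exact h5
  · have h6 : ∀ᶠ c in 𝓝 x, ∀ j, c ∈ P (ε j) := by
      rw [eventually_all]
      exact fun j => hP _
    filter_upwards [h6] with c hc e
    exact hPU (ε (q e)) c (hc _) e (hε _ (hq e))

theorem key {Φ Ψ : C(OmegaStar, OmegaStar) → C(OmegaStar, OmegaStar)} (hΦ : Continuous Φ)
    (hΨ : Continuous Ψ) (hΨΦ : ∀ g, Ψ (Φ g) = g) {x y : OmegaStar} (hxy : Φ (K x) = K y)
    (e0 : OmegaStar) : ∃ e1 : OmegaStar, ∀ᶠ c in 𝓝 x, Ψ (K (Φ (K c) e1)) e0 = c := by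
  have hF : Continuous fun p : OmegaStar × OmegaStar => Φ (K p.1) p.2 :=
    continuous_eval.comp ((hΦ.comp (continuous_K.comp continuous_fst)).prodMk continuous_snd)
  obtain ⟨n, ε, q, hq, hεq⟩ := exists_partition hF (x := x) (y := y) (fun e => by
    show Φ (K x) e = y
    rw [hxy, K_apply])
  have hqc : ∀ d : Fin n → OmegaStar, Continuous fun e => d (q e) := by
    intro d
    rw [continuous_iff_continuousAt]
    intro e
    refine (continuousAt_const (y := d (q e))).congr ?_
    filter_upwards [hq e] with e' he'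
    rw [he']
  let G : (Fin n → OmegaStar) → C(OmegaStar, OmegaStar) := fun d => ⟨fun e => d (q e), hqc d⟩
  have hG : Continuous G := by
    apply ContinuousMap.continuous_of_continuous_uncurry
    rw [continuous_iff_continuousAt]
    rintro ⟨d, e⟩
    have h1 : ContinuousAt (fun p : (Fin n → OmegaStar) × OmegaStar => p.1 (q e)) (d, e) := by
      have : Continuous fun p : (Fin n → OmegaStar) × OmegaStar => p.1 (q e) := by fun_prop
      exact this.continuousAt
    refine h1.congr ?_
    have h2 : Tendsto (fun p : (Fin n → OmegaStar) × OmegaStar => p.2) (𝓝 (d, e)) (𝓝 e) :=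
      continuous_snd.continuousAt
    filter_upwards [h2.eventually (hq e)] with p hp
    show p.1 (q e) = p.1 (q p.2)
    rw [hp]
  have hT : Continuous fun d : Fin n → OmegaStar => Ψ (G d) e0 :=
    continuous_eval.comp ((hΨ.comp hG).prodMk continuous_const)
  have : Nonempty (Fin n) := ⟨q e0⟩
  obtain ⟨i, hi⟩ := local_pi hT (fun _ => y)
  have hG2 : ∀ v, G (fun _ => v) = K v := fun v => rfl
  have h3 : Tendsto (fun d : Fin n → OmegaStar => fun _ : Fin n => d i) (𝓝 fun _ => y)
      (𝓝 fun _ => y) := by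
    have : Continuous fun d : Fin n → OmegaStar => fun _ : Fin n => d i :=
      continuous_pi fun _ => continuous_apply i
    exact this.tendsto _
  have h4 : ∀ᶠ d in 𝓝 (fun _ : Fin n => y), Ψ (G d) e0 = Ψ (K (d i)) e0 := by
    filter_upwards [hi, h3.eventually hi] with d h5 h6
    rw [h5, ← hG2, h6]
  have h5 : Tendsto (fun c : OmegaStar => fun j => Φ (K c) (ε j)) (𝓝 x) (𝓝 fun _ => y) := by
    have : Continuous fun c : OmegaStar => fun j => Φ (K c) (ε j) := by
      refine continuous_pi fun j => ?_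
      exact hF.comp (continuous_id.prodMk continuous_const)
    have h6 := this.tendsto x
    simp only [hxy, K_apply] at h6
    exact h6
  refine ⟨ε i, ?_⟩
  filter_upwards [h5.eventually h4, hεq] with c h6 h7
  rw [← h6]
  have h8 : G (fun j => Φ (K c) (ε j)) = Φ (K c) := by
    ext1 e
    exact (h7 e).symm
  rw [h8, hΨΦ, K_apply]

/-! ### from local homeomorphisms to homeomorphisms -/

theorem infinite_of_mem {p : OmegaStar} {B : Set ℕ} (h : p ∈ st B) : B.Infinite := by
  intro hfin
  have h1 : Bᶜ ∈ p.1 := p.2 (by simpa using hfin)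
  exact Ultrafilter.compl_notMem_iff.2 h h1

theorem exists_of_infinite {B : Set ℕ} (h : B.Infinite) : ∃ p : OmegaStar, p ∈ st B := by
  have hne : (Filter.cofinite ⊓ 𝓟 B : Filter ℕ).NeBot := by
    rw [Filter.inf_principal_neBot_iff]
    intro U hU
    have h1 : Uᶜ.Finite := hU
    have h2 : (B \ Uᶜ).Infinite := h.diff h1
    obtain ⟨n, hn⟩ := h2.nonempty
    exact ⟨n, by simpa using hn.2, hn.1⟩
  have h1 := Ultrafilter.of_le (Filter.cofinite ⊓ 𝓟 B : Filter ℕ)
  exact ⟨⟨Ultrafilter.of _, h1.trans inf_le_left⟩, (h1.trans inf_le_right) (mem_principal_self B)⟩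

theorem exists_ne (x : OmegaStar) : ∃ x' : OmegaStar, x ≠ x' := by
  have h0 : {n : ℕ | ∃ k, n = 2 * k}.Infinite := by
    apply Set.infinite_of_injective_forall_mem (f := fun k : ℕ => 2 * k)
    · intro a b hab
      simp only at hab
      omega
    · exact fun k => ⟨k, rfl⟩
  have h1 : {n : ℕ | ∃ k, n = 2 * k + 1}.Infinite := by
    apply Set.infinite_of_injective_forall_mem (f := fun k : ℕ => 2 * k + 1)
    · intro a b hab
      simp only at hab
      omega
    · exact fun k => ⟨k, rfl⟩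
  obtain ⟨p, hp⟩ := exists_of_infinite h0
  obtain ⟨q, hq⟩ := exists_of_infinite h1
  have hpq : p ≠ q := by
    rintro rfl
    refine not_both ?_ hp hq
    rw [Set.disjoint_left]
    rintro k ⟨i, hi⟩ ⟨j, hj⟩
    omega
  by_cases h : x = p
  · exact ⟨q, by rw [h]; exact hpq⟩
  · exact ⟨p, h⟩

theorem clopen_eq_st {C : Set OmegaStar} (hC : IsClopen C) : ∃ B, C = st B := by
  have h1 : ∀ p : C, ∃ B, p.1 ∈ st B ∧ st B ⊆ C := fun p =>
    exists_st_of_nhds (hC.isOpen.mem_nhds p.2)
  choose B hB1 hB2 using h1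
  obtain ⟨t, ht⟩ := hC.isClosed.isCompact.elim_finite_subcover (fun p : C => st (B p))
    (fun p => isOpen_st _) (fun p hp => mem_iUnion.2 ⟨⟨p, hp⟩, hB1 ⟨p, hp⟩⟩)
  refine ⟨⋃ p ∈ t, B p, ?_⟩
  apply subset_antisymm
  · intro p hp
    obtain ⟨i, hi, hpi⟩ := mem_iUnion₂.1 (ht hp)
    exact st_mono (subset_biUnion_of_mem (u := B) hi) hpi
  · intro p hp
    have h2 : (⋃ i ∈ (t : Set C), B i) ∈ p.1 := hp
    rw [Ultrafilter.finite_biUnion_mem_iff t.finite_toSet] at h2
    obtain ⟨i, -, hi⟩ := h2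
    exact hB2 i hi

/-- the homeomorphism induced by a permutation -/
noncomputable def permHomeo (σ : ℕ ≃ ℕ) : OmegaStar ≃ₜ OmegaStar where
  toFun p := ⟨p.1.map σ, by
    have : Tendsto σ (p.1 : Filter ℕ) Filter.cofinite :=
      σ.injective.tendsto_cofinite.mono_left p.2
    exact this⟩
  invFun p := ⟨p.1.map σ.symm, by
    have : Tendsto σ.symm (p.1 : Filter ℕ) Filter.cofinite :=
      σ.symm.injective.tendsto_cofinite.mono_left p.2
    exact this⟩
  left_inv p := by
    apply Subtype.ext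
    simp [Ultrafilter.map_map]
  right_inv p := by
    apply Subtype.ext
    simp [Ultrafilter.map_map]
  continuous_toFun := by
    rw [continuous_iff_continuousAt]
    intro p U hU
    obtain ⟨B, hB, hBU⟩ := exists_st_of_nhds hU
    rw [mem_map]
    refine mem_of_superset (st_mem_nhds (B := σ ⁻¹' B) hB) ?_
    intro q hq
    exact hBU hq
  continuous_invFun := by
    rw [continuous_iff_continuousAt]
    intro p U hU
    obtain ⟨B, hB, hBU⟩ := exists_st_of_nhds hU
    rw [mem_map]
    refine mem_of_superset (st_mem_nhds (B := σ.symm ⁻¹' B) hB) ?_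
    intro q hq
    exact hBU hq

theorem permHomeo_mem {σ : ℕ ≃ ℕ} {A D : Set ℕ} (h : ∀ n, n ∈ A ↔ σ n ∈ D) (p : OmegaStar) :
    permHomeo σ p ∈ st D ↔ p ∈ st A := by
  have : σ ⁻¹' D = A := by
    ext n
    exact (h n).symm
  show σ ⁻¹' D ∈ p.1 ↔ A ∈ p.1
  rw [this]

theorem exists_perm {A D : Set ℕ} (hA : A.Infinite) (hA' : Aᶜ.Infinite) (hD : D.Infinite)
    (hD' : Dᶜ.Infinite) : ∃ σ : ℕ ≃ ℕ, ∀ n, n ∈ A ↔ σ n ∈ D := by
  classical
  have := hA.to_subtype
  have := hA'.to_subtype
  have := hD.to_subtype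
  have := hD'.to_subtype
  obtain ⟨e1⟩ : Nonempty (A ≃ D) := nonempty_equiv_of_countable
  obtain ⟨e2⟩ : Nonempty (↥Aᶜ ≃ ↥Dᶜ) := nonempty_equiv_of_countable
  refine ⟨(Equiv.Set.sumCompl A).symm.trans ((Equiv.sumCongr e1 e2).trans (Equiv.Set.sumCompl D)), ?_⟩
  intro n
  by_cases hn : n ∈ A
  · simp [hn, Equiv.Set.sumCompl_symm_apply_of_mem hn]
  · have h1 : ((e2 ⟨n, hn⟩ : ↥Dᶜ) : ℕ) ∉ D := (e2 ⟨n, hn⟩).2
    simp [hn, Equiv.Set.sumCompl_symm_apply_of_notMem hn, h1]

theorem extend {x y : OmegaStar} {r t : OmegaStar → OmegaStar} (hr : Continuous r)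
    (ht : Continuous t) (hrx : r x = y) (hty : t y = x) (h1 : ∀ᶠ c in 𝓝 x, t (r c) = c)
    (h2 : ∀ᶠ d in 𝓝 y, r (t d) = d) : ∃ g : OmegaStar ≃ₜ OmegaStar, g x = y := by
  classical
  obtain ⟨x', hx'⟩ := exists_ne x
  obtain ⟨y', hy'⟩ := exists_ne y
  obtain ⟨A0, hA0, hA0'⟩ := exists_sep hx'
  obtain ⟨D0, hD0, hD0'⟩ := exists_sep hy'
  obtain ⟨A1, hA1, hA1'⟩ := exists_st_of_nhds h1
  obtain ⟨D1, hD1, hD1'⟩ := exists_st_of_nhds h2
  have hclA : IsClopen (st (A0 ∩ A1) ∩ r ⁻¹' st (D0 ∩ D1)) :=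
    ⟨(isClosed_st _).inter ((isClosed_st _).preimage hr),
      (isOpen_st _).inter ((isOpen_st _).preimage hr)⟩
  have hclD : IsClopen (st (D0 ∩ D1) ∩ t ⁻¹' st (A0 ∩ A1)) :=
    ⟨(isClosed_st _).inter ((isClosed_st _).preimage ht),
      (isOpen_st _).inter ((isOpen_st _).preimage ht)⟩
  obtain ⟨A, hA⟩ := clopen_eq_st hclA
  obtain ⟨D, hD⟩ := clopen_eq_st hclD
  have hxA : x ∈ st A := by
    rw [← hA]
    refine ⟨mem_st_inter.2 ⟨hA0, hA1⟩, ?_⟩
    rw [mem_preimage, hrx]
    exact mem_st_inter.2 ⟨hD0, hD1⟩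
  have hyD : y ∈ st D := by
    rw [← hD]
    refine ⟨mem_st_inter.2 ⟨hD0, hD1⟩, ?_⟩
    rw [mem_preimage, hty]
    exact mem_st_inter.2 ⟨hA0, hA1⟩
  have hx'A : x' ∈ st Aᶜ := by
    rw [← st_compl, ← hA]
    exact fun h => hA0' (mem_st_inter.1 h.1).1
  have hy'D : y' ∈ st Dᶜ := by
    rw [← st_compl, ← hD]
    exact fun h => hD0' (mem_st_inter.1 h.1).1
  have htr : ∀ c ∈ st A, t (r c) = c := by
    intro c hc
    rw [← hA] at hc
    exact hA1' (mem_st_inter.1 hc.1).2
  have hrt : ∀ d ∈ st D, r (t d) = d := by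
    intro d hd
    rw [← hD] at hd
    exact hD1' (mem_st_inter.1 hd.1).2
  have hrA : ∀ c ∈ st A, r c ∈ st D := by
    intro c hc
    have h3 := htr c hc
    rw [← hA] at hc
    rw [← hD]
    refine ⟨hc.2, ?_⟩
    rw [mem_preimage, h3]
    exact hc.1
  have htD : ∀ d ∈ st D, t d ∈ st A := by
    intro d hd
    have h3 := hrt d hd
    rw [← hD] at hd
    rw [← hA]
    refine ⟨hd.2, ?_⟩
    rw [mem_preimage, h3]
    exact hd.1
  obtain ⟨σ, hσ⟩ := exists_perm (infinite_of_mem hxA) (infinite_of_mem hx'A) (infinite_of_mem hyD)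
    (infinite_of_mem hy'D)
  have hH : ∀ p, permHomeo σ p ∈ st D ↔ p ∈ st A := permHomeo_mem hσ
  have hH' : ∀ q, (permHomeo σ).symm q ∈ st A ↔ q ∈ st D := by
    intro q
    rw [← hH, Homeomorph.apply_symm_apply]
  refine ⟨⟨⟨(st A).piecewise r (permHomeo σ), (st D).piecewise t (permHomeo σ).symm, ?_, ?_⟩, ?_, ?_⟩, ?_⟩
  · intro p
    by_cases hp : p ∈ st A
    · rw [Set.piecewise_eq_of_mem _ _ _ hp, Set.piecewise_eq_of_mem _ _ _ (hrA p hp), htr p hp]
    · rw [Set.piecewise_eq_of_notMem _ _ _ hp,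
        Set.piecewise_eq_of_notMem _ _ _ (fun h => hp ((hH p).1 h)), Homeomorph.symm_apply_apply]
  · intro q
    by_cases hq : q ∈ st D
    · rw [Set.piecewise_eq_of_mem _ _ _ hq, Set.piecewise_eq_of_mem _ _ _ (htD q hq), hrt q hq]
    · rw [Set.piecewise_eq_of_notMem _ _ _ hq,
        Set.piecewise_eq_of_notMem _ _ _ (fun h => hq ((hH' q).1 h)), Homeomorph.apply_symm_apply]
  · refine Continuous.piecewise ?_ hr (permHomeo σ).continuous
    intro a ha
    rw [IsClopen.frontier_eq ⟨isClosed_st A, isOpen_st A⟩] at ha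
    exact absurd ha (Set.notMem_empty _)
  · refine Continuous.piecewise ?_ ht (permHomeo σ).symm.continuous
    intro a ha
    rw [IsClopen.frontier_eq ⟨isClosed_st D, isOpen_st D⟩] at ha
    exact absurd ha (Set.notMem_empty _)
  · show (st A).piecewise r (permHomeo σ) x = y
    rw [Set.piecewise_eq_of_mem _ _ _ hxA, hrx]

theorem main {x y : OmegaStar} (Φ : C(OmegaStar, OmegaStar) ≃ₜ C(OmegaStar, OmegaStar))
    (hΦ : Φ (K x) = K y) : ∃ g : OmegaStar ≃ₜ OmegaStar, g x = y := by
  have hΨ : Φ.symm (K y) = K x := by rw [← hΦ, Homeomorph.symm_apply_apply]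
  obtain ⟨e1, h1⟩ := key Φ.continuous Φ.symm.continuous (fun g => Φ.symm_apply_apply g) hΦ x
  obtain ⟨e2, h2⟩ := key Φ.symm.continuous Φ.continuous (fun g => Φ.apply_symm_apply g) hΨ e1
  have hr : Continuous fun c : OmegaStar => Φ (K c) e1 :=
    continuous_eval.comp ((Φ.continuous.comp continuous_K).prodMk continuous_const)
  have ht : Continuous fun d : OmegaStar => Φ.symm (K d) x :=
    continuous_eval.comp ((Φ.symm.continuous.comp continuous_K).prodMk continuous_const)
  have ht2 : Continuous fun d : OmegaStar => Φ.symm (K d) e2 :=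
    continuous_eval.comp ((Φ.symm.continuous.comp continuous_K).prodMk continuous_const)
  refine extend hr ht (by rw [hΦ, K_apply]) (by rw [hΨ, K_apply]) h1 ?_
  have h3 : Tendsto (fun d : OmegaStar => Φ.symm (K d) e2) (𝓝 y) (𝓝 x) := by
    have := ht2.tendsto y
    rwa [hΨ, K_apply] at this
  filter_upwards [h2, h3.eventually h1] with d h4 h5
  rw [h4] at h5
  rw [h5, h4]

/-- the converse -/
theorem converse {x y : OmegaStar} (g : OmegaStar ≃ₜ OmegaStar) (hg : g x = y) :
    ∃ Φ : C(OmegaStar, OmegaStar) ≃ₜ C(OmegaStar, OmegaStar), Φ (K x) = K y := by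
  refine ⟨⟨⟨fun h => (⟨g, g.continuous⟩ : C(OmegaStar, OmegaStar)).comp h,
    fun h => (⟨g.symm, g.symm.continuous⟩ : C(OmegaStar, OmegaStar)).comp h, ?_, ?_⟩,
    ContinuousMap.continuous_postcomp _, ContinuousMap.continuous_postcomp _⟩, ?_⟩
  · intro h
    ext1 e
    simp
  · intro h
    ext1 e
    simp
  · ext1 e
    show g (K x e) = K y e
    rw [K_apply, K_apply, hg]

end Pool.Agent.Lib.MP_975af5_gt
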