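import Pool.Agent.Lib.MP_975af5_gt.Basic

/-!
A continuous map from a product of two compact spaces to `ω*` depends locally on at most one
coordinate.
-/

set_option autoImplicit false
set_option linter.all false

open Filter Topology Set

namespace Pool.Agent.Lib.MP_975af5_gt

theorem mem_st_diff {A B : Set ℕ} {p : OmegaStar} : p ∈ st (A \ B) ↔ p ∈ st A ∧ p ∉ st B :=
  Ultrafilter.diff_mem_iff p.1

theorem mem_st_inter {A B : Set ℕ} {p : OmegaStar} : p ∈ st (A ∩ B) ↔ p ∈ st A ∧ p ∈ st B := by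
  rw [st_inter]; rfl

theorem not_both {A B : Set ℕ} {p : OmegaStar} (h : Disjoint A B) (hA : p ∈ st A)
    (hB : p ∈ st B) : False := by
  have h1 : p ∈ st (A ∩ B) := mem_st_inter.2 ⟨hA, hB⟩
  rw [h.inter_eq] at h1
  exact Ultrafilter.empty_notMem h1

/-- bookkeeping for inductive constructions -/
structure Cell (K L : Type*) where
  c : K
  e : L
  O : Set ℕ
  N : Set ℕ
  V : Set ℕ

section disj

variable {O N V : ℕ → Set ℕ} (h : ∀ m n, m < n → O n ⊆ N m)

include h

theorem disj_G {i j : ℕ} (hij : i ≠ j) : Disjoint (O i \ N i) (O j \ N j) := by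
  rw [Set.disjoint_left]
  rintro k ⟨h1, h2⟩ ⟨h3, h4⟩
  rcases lt_or_gt_of_ne hij with h' | h'
  · exact h2 (h i j h' h3)
  · exact h4 (h j i h' h1)

theorem notMem_union (hV : ∀ n, V n ⊆ O n \ N n) {i : ℕ} {p : OmegaStar}
    (hp : p ∈ st (O i \ N i)) (hpV : p ∉ st (V i)) (S : Set ℕ) : p ∉ st (⋃ n ∈ S, V n) := by
  intro hcon
  refine not_both (A := (O i \ N i) \ V i) (B := ⋃ n ∈ S, V n) ?_ (mem_st_diff.2 ⟨hp, hpV⟩) hcon
  rw [Set.disjoint_left]
  rintro k ⟨h1, h2⟩ h3
  simp only [mem_iUnion] at h3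
  obtain ⟨n, -, h3⟩ := h3
  by_cases hn : n = i
  · subst hn; exact h2 h3
  · exact (Set.disjoint_left.1 (disj_G h hn) (hV n h3) h1)

end disj

theorem mem_union {V : ℕ → Set ℕ} {i : ℕ} {p : OmegaStar} (hp : p ∈ st (V i)) {S : Set ℕ}
    (hi : i ∈ S) : p ∈ st (⋃ n ∈ S, V n) :=
  st_mono (subset_biUnion_of_mem (u := V) hi) hp

section main

variable {K L : Type*} [TopologicalSpace K] [TopologicalSpace L]
variable {f : K × L → OmegaStar}

theorem biInter_mem {s : Finset (Cell K L)} {z : OmegaStar} (h : ∀ x ∈ s, z ∈ st x.N) :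
    z ∈ st (⋂ x ∈ s, x.N) := by
  rw [mem_st]
  exact (Filter.biInter_finset_mem s).2 h

variable [CompactSpace K] [CompactSpace L]

theorem step1 (hf : Continuous f) (a : K) (b : L) :
    ∀ᶠ p : K × L in 𝓝 (a, b), f (p.1, b) = f (a, b) ∨ f p = f (a, b) ∨ f (p.1, b) = f p := by
  by_contra hcon
  rw [not_eventually] at hcon
  obtain ⟨x, hxP, hxr⟩ := exists_seq_of_forall_finset_exists
    (fun x : Cell K L => f (a, b) ∈ st x.N ∧ x.V ⊆ x.O \ x.N ∧ f (x.c, b) ∈ st x.V ∧
      f (x.c, x.e) ∈ st (x.O \ x.N) ∧ f (x.c, x.e) ∉ st x.V)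
    (fun x y => y.O ⊆ x.N ∧ f (x.c, y.e) ∈ st x.V)
    (by
      intro s hs
      have hO : f (a, b) ∈ st (⋂ x ∈ s, x.N) := biInter_mem fun x hx => (hs x hx).1
      set O := ⋂ x ∈ s, x.N with hOdef
      have h1 : ∀ᶠ p : K × L in 𝓝 (a, b), f (p.1, b) ∈ st O := by
        have : Continuous fun p : K × L => f (p.1, b) := by fun_prop
        exact this.continuousAt.eventually (st_mem_nhds hO)
      have h2 : ∀ᶠ p : K × L in 𝓝 (a, b), f p ∈ st O :=
        hf.continuousAt.eventually (st_mem_nhds hO)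
      have h3 : ∀ᶠ p : K × L in 𝓝 (a, b), ∀ x ∈ s, f (x.c, p.2) ∈ st x.V := by
        rw [Filter.eventually_all_finset]
        intro x hx
        have : Continuous fun p : K × L => f (x.c, p.2) := by fun_prop
        exact this.continuousAt.eventually (st_mem_nhds (hs x hx).2.2.1)
      obtain ⟨p, hp, hp1, hp2, hp3⟩ := (hcon.and_eventually (h1.and (h2.and h3))).exists
      push Not at hp
      obtain ⟨hu, hw, huw⟩ := hp
      obtain ⟨N1, hN1, hN1'⟩ := exists_sep hu.symm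
      obtain ⟨N2, hN2, hN2'⟩ := exists_sep hw.symm
      obtain ⟨V1, hV1, hV1'⟩ := exists_sep huw
      refine ⟨⟨p.1, p.2, O, O ∩ (N1 ∩ N2), (O \ (O ∩ (N1 ∩ N2))) ∩ V1⟩, ?_, ?_⟩
      · refine ⟨mem_st_inter.2 ⟨hO, mem_st_inter.2 ⟨hN1, hN2⟩⟩, inter_subset_left, ?_, ?_, ?_⟩
        · exact mem_st_inter.2 ⟨mem_st_diff.2 ⟨hp1, fun h => hN1' (mem_st_inter.1 (mem_st_inter.1 h).2).1⟩, hV1⟩
        · exact mem_st_diff.2 ⟨hp2, fun h => hN2' (mem_st_inter.1 (mem_st_inter.1 h).2).2⟩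
        · exact fun h => hV1' (mem_st_inter.1 h).2
      · intro x hx
        exact ⟨biInter_subset_of_mem hx, hp3 x hx⟩)
  refine no_upper_diag hf (fun n => (x n).c) (fun n => (x n).e) (⋃ n ∈ (univ : Set ℕ), (x n).V) ?_ ?_
  · intro i j hij
    exact mem_union (V := fun n => (x n).V) (hxr i j hij).2 (mem_univ i)
  · intro i
    exact notMem_union (O := fun n => (x n).O) (N := fun n => (x n).N) (V := fun n => (x n).V)
      (fun m n hmn => (hxr m n hmn).1) (fun n => (hxP n).2.1) (hxP i).2.2.2.1 (hxP i).2.2.2.2 _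

theorem step2 (hf : Continuous f) (a : K) (b : L) :
    ∀ᶠ p : K × L in 𝓝 (a, b),
      f (p.1, b) = f (a, b) ∨ f (a, p.2) = f (a, b) ∨ f (p.1, b) = f (a, p.2) := by
  by_contra hcon
  rw [not_eventually] at hcon
  obtain ⟨x, hxP, hxr⟩ := exists_seq_of_forall_finset_exists
    (fun x : Cell K L => f (a, b) ∈ st x.N ∧ x.V ⊆ x.O \ x.N ∧ f (x.c, b) ∈ st x.V ∧
      f (a, x.e) ∈ st ((x.O \ x.N) \ x.V))
    (fun x y => y.O ⊆ x.N ∧ f (x.c, y.e) ∈ st x.V ∧ f (y.c, x.e) ∈ st ((x.O \ x.N) \ x.V))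
    (by
      intro s hs
      have hO : f (a, b) ∈ st (⋂ x ∈ s, x.N) := biInter_mem fun x hx => (hs x hx).1
      set O := ⋂ x ∈ s, x.N with hOdef
      have h1 : ∀ᶠ p : K × L in 𝓝 (a, b), f (p.1, b) ∈ st O := by
        have : Continuous fun p : K × L => f (p.1, b) := by fun_prop
        exact this.continuousAt.eventually (st_mem_nhds hO)
      have h2 : ∀ᶠ p : K × L in 𝓝 (a, b), f (a, p.2) ∈ st O := by
        have : Continuous fun p : K × L => f (a, p.2) := by fun_prop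
        exact this.continuousAt.eventually (st_mem_nhds hO)
      have h3 : ∀ᶠ p : K × L in 𝓝 (a, b), ∀ x ∈ s, f (x.c, p.2) ∈ st x.V := by
        rw [Filter.eventually_all_finset]
        intro x hx
        have : Continuous fun p : K × L => f (x.c, p.2) := by fun_prop
        exact this.continuousAt.eventually (st_mem_nhds (hs x hx).2.2.1)
      have h4 : ∀ᶠ p : K × L in 𝓝 (a, b), ∀ x ∈ s, f (p.1, x.e) ∈ st ((x.O \ x.N) \ x.V) := by
        rw [Filter.eventually_all_finset]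
        intro x hx
        have : Continuous fun p : K × L => f (p.1, x.e) := by fun_prop
        exact this.continuousAt.eventually (st_mem_nhds (hs x hx).2.2.2)
      obtain ⟨p, hp, hp1, hp2, hp3, hp4⟩ :=
        (hcon.and_eventually (h1.and (h2.and (h3.and h4)))).exists
      push Not at hp
      obtain ⟨hu, hw, huw⟩ := hp
      obtain ⟨N1, hN1, hN1'⟩ := exists_sep hu.symm
      obtain ⟨N2, hN2, hN2'⟩ := exists_sep hw.symm
      obtain ⟨V1, hV1, hV1'⟩ := exists_sep huw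
      refine ⟨⟨p.1, p.2, O, O ∩ (N1 ∩ N2), (O \ (O ∩ (N1 ∩ N2))) ∩ V1⟩, ?_, ?_⟩
      · refine ⟨mem_st_inter.2 ⟨hO, mem_st_inter.2 ⟨hN1, hN2⟩⟩, inter_subset_left, ?_, ?_⟩
        · exact mem_st_inter.2 ⟨mem_st_diff.2 ⟨hp1, fun h => hN1' (mem_st_inter.1 (mem_st_inter.1 h).2).1⟩, hV1⟩
        · refine mem_st_diff.2 ⟨mem_st_diff.2 ⟨hp2, fun h => hN2' (mem_st_inter.1 (mem_st_inter.1 h).2).2⟩, ?_⟩
          exact fun h => hV1' (mem_st_inter.1 h).2
      · intro x hx
        exact ⟨biInter_subset_of_mem hx, hp3 x hx, hp4 x hx⟩)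
  refine no_upper_lower hf (fun n => (x n).c) (fun n => (x n).e) (⋃ n ∈ (univ : Set ℕ), (x n).V) ?_ ?_
  · intro i j hij
    exact mem_union (V := fun n => (x n).V) (hxr i j hij).2.1 (mem_univ i)
  · intro i j hij
    have h1 := mem_st_diff.1 (hxr j i hij).2.2
    exact notMem_union (O := fun n => (x n).O) (N := fun n => (x n).N) (V := fun n => (x n).V)
      (fun m n hmn => (hxr m n hmn).1) (fun n => (hxP n).2.1) h1.1 h1.2 _

/-- `z` is outside of the even or of the odd union -/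
theorem parity {V : ℕ → Set ℕ} {O N : ℕ → Set ℕ} (h : ∀ m n, m < n → O n ⊆ N m)
    (hV : ∀ n, V n ⊆ O n \ N n) (z : OmegaStar) :
    ∃ r : ℕ, z ∉ st (⋃ n ∈ {n : ℕ | ∃ k, n = 2 * k + r}, V n) := by
  by_contra hcon
  push Not at hcon
  have h0 := hcon 0
  have h1 := hcon 1
  refine not_both ?_ h0 h1
  rw [Set.disjoint_left]
  intro k hk0 hk1
  simp only [mem_iUnion] at hk0 hk1
  obtain ⟨n, ⟨i, hi⟩, hn⟩ := hk0
  obtain ⟨m, ⟨j, hj⟩, hm⟩ := hk1
  have hnm : n ≠ m := by omega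
  exact Set.disjoint_left.1 (disj_G h hnm) (hV n hn) (hV m hm)

theorem step3 (hf : Continuous f) (a : K) (b : L) :
    ∀ᶠ p : K × L in 𝓝 (a, b), f p = f (a, b) → f (p.1, b) = f (a, b) := by
  by_contra hcon
  rw [not_eventually] at hcon
  obtain ⟨x, hxP, hxr⟩ := exists_seq_of_forall_finset_exists
    (fun x : Cell K L => f (a, b) ∈ st x.N ∧ f (x.c, b) ∈ st (x.O \ x.N) ∧
      f (x.c, x.e) = f (a, b))
    (fun x y => y.O ⊆ x.N ∧ f (x.c, y.e) ∈ st (x.O \ x.N))
    (by
      intro s hs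
      have hO : f (a, b) ∈ st (⋂ x ∈ s, x.N) := biInter_mem fun x hx => (hs x hx).1
      set O := ⋂ x ∈ s, x.N with hOdef
      have h1 : ∀ᶠ p : K × L in 𝓝 (a, b), f (p.1, b) ∈ st O := by
        have : Continuous fun p : K × L => f (p.1, b) := by fun_prop
        exact this.continuousAt.eventually (st_mem_nhds hO)
      have h3 : ∀ᶠ p : K × L in 𝓝 (a, b), ∀ x ∈ s, f (x.c, p.2) ∈ st (x.O \ x.N) := by
        rw [Filter.eventually_all_finset]
        intro x hx
        have : Continuous fun p : K × L => f (x.c, p.2) := by fun_prop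
        exact this.continuousAt.eventually (st_mem_nhds (hs x hx).2.1)
      obtain ⟨p, hp, hp1, hp3⟩ := (hcon.and_eventually (h1.and h3)).exists
      push Not at hp
      obtain ⟨hw, hu⟩ := hp
      obtain ⟨N1, hN1, hN1'⟩ := exists_sep hu.symm
      refine ⟨⟨p.1, p.2, O, O ∩ N1, ∅⟩, ?_, ?_⟩
      · refine ⟨mem_st_inter.2 ⟨hO, hN1⟩, ?_, hw⟩
        exact mem_st_diff.2 ⟨hp1, fun h => hN1' (mem_st_inter.1 h).2⟩
      · intro x hx
        exact ⟨biInter_subset_of_mem hx, hp3 x hx⟩)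
  obtain ⟨r, hr⟩ := parity (O := fun n => (x n).O) (N := fun n => (x n).N)
    (V := fun n => (x n).O \ (x n).N) (fun m n hmn => (hxr m n hmn).1) (fun n => subset_rfl)
    (f (a, b))
  refine no_upper_diag hf (fun n => (x (2 * n + r)).c) (fun n => (x (2 * n + r)).e)
    (⋃ n ∈ {n : ℕ | ∃ k, n = 2 * k + r}, (x n).O \ (x n).N) ?_ ?_
  · intro i j hij
    exact mem_union (V := fun n => (x n).O \ (x n).N) (hxr (2 * i + r) (2 * j + r) (by omega)).2
      ⟨i, rfl⟩
  · intro i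
    show f ((x (2 * i + r)).c, (x (2 * i + r)).e) ∉ _
    rw [(hxP (2 * i + r)).2.2]
    exact hr

theorem sep_finite {z : OmegaStar} {F : Set OmegaStar} (hF : F.Finite) (hz : z ∉ F) :
    ∃ B, z ∈ st B ∧ ∀ q ∈ F, q ∉ st B := by
  obtain ⟨B, hB, hB2⟩ := exists_st_of_nhds (hF.isClosed.isOpen_compl.mem_nhds (show z ∈ Fᶜ from hz))
  exact ⟨B, hB, fun q hq h => hB2 h hq⟩

theorem upper_case (hf : Continuous f) {c : ℕ → K} {e : ℕ → L} {O N : ℕ → Set ℕ}
    (h : ∀ m n, m < n → O n ⊆ N m) {z : OmegaStar}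
    (hw : ∀ n, f (c n, e n) ∈ st (O n \ N n))
    (hz : ∀ m n, m < n → f (c m, e n) = z ∨ f (c m, e n) ∈ st (O n \ N n))
    (hne : ∀ m n, m < n → f (c m, e n) ≠ f (c n, e n)) : False := by
  have h1 : ∀ n, ∃ B, f (c n, e n) ∈ st B ∧ ∀ q ∈ (fun m => f (c m, e n)) '' {m | m < n}, q ∉ st B := by
    intro n
    apply sep_finite
    · exact (Set.finite_lt_nat n).image _
    · rintro ⟨m, hm, hmn⟩
      exact hne m n hm hmn
  choose B hB1 hB2 using h1
  set V : ℕ → Set ℕ := fun n => (O n \ N n) ∩ B n with hVdef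
  have hV : ∀ n, V n ⊆ O n \ N n := fun n => inter_subset_left
  obtain ⟨r, hr⟩ := parity h hV z
  refine no_upper_diag' hf (fun n => c (2 * n + r)) (fun n => e (2 * n + r))
    (⋃ n ∈ {n : ℕ | ∃ k, n = 2 * k + r}, V n) ?_ ?_
  · intro i j hij
    have hij' : 2 * i + r < 2 * j + r := by omega
    rcases hz _ _ hij' with h2 | h2
    · show f (c (2 * i + r), e (2 * j + r)) ∉ _
      rw [h2]; exact hr
    · refine notMem_union h hV h2 ?_ _
      intro h3
      exact hB2 (2 * j + r) _ ⟨2 * i + r, hij', rfl⟩ (mem_st_inter.1 h3).2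
  · intro i
    exact mem_union (V := V) (mem_st_inter.2 ⟨hw _, hB1 _⟩) ⟨i, rfl⟩

theorem step4 (hf : Continuous f) (a : K) (b : L) (hA : ∀ᶠ e in 𝓝 b, f (a, e) = f (a, b)) :
    ∀ᶠ p : K × L in 𝓝 (a, b), f (p.1, b) = f (a, b) → f p = f (a, b) := by
  by_contra hcon
  rw [not_eventually] at hcon
  obtain ⟨x, hxP, hxr⟩ := exists_seq_of_forall_finset_exists
    (fun x : Cell K L => f (a, b) ∈ st x.N ∧ f (x.c, x.e) ∈ st (x.O \ x.N) ∧
      f (x.c, b) = f (a, b) ∧ f (a, x.e) = f (a, b))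
    (fun x y => y.O ⊆ x.N ∧
      (f (x.c, y.e) = f (a, b) ∨ f (x.c, y.e) ∈ st (y.O \ y.N)) ∧
      (f (y.c, x.e) = f (a, b) ∨ f (y.c, x.e) ∈ st (y.O \ y.N)))
    (by
      intro s hs
      have hO : f (a, b) ∈ st (⋂ x ∈ s, x.N) := biInter_mem fun x hx => (hs x hx).1
      set O := ⋂ x ∈ s, x.N with hOdef
      have h1 : ∀ᶠ p : K × L in 𝓝 (a, b), f p ∈ st O :=
        hf.continuousAt.eventually (st_mem_nhds hO)
      have h2 : ∀ᶠ p : K × L in 𝓝 (a, b), f (a, p.2) = f (a, b) := by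
        have : Tendsto (fun p : K × L => p.2) (𝓝 (a, b)) (𝓝 b) := continuous_snd.continuousAt
        exact this.eventually hA
      have h3 : ∀ᶠ p : K × L in 𝓝 (a, b), ∀ x ∈ s, f (x.c, p.2) ∈ st O := by
        rw [Filter.eventually_all_finset]
        intro x hx
        have : Continuous fun p : K × L => f (x.c, p.2) := by fun_prop
        refine this.continuousAt.eventually (st_mem_nhds ?_)
        show f (x.c, b) ∈ st O
        rw [(hs x hx).2.2.1]
        exact hO
      have h4 : ∀ᶠ p : K × L in 𝓝 (a, b), ∀ x ∈ s, f (p.1, x.e) ∈ st O := by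
        rw [Filter.eventually_all_finset]
        intro x hx
        have : Continuous fun p : K × L => f (p.1, x.e) := by fun_prop
        refine this.continuousAt.eventually (st_mem_nhds ?_)
        show f (a, x.e) ∈ st O
        rw [(hs x hx).2.2.2]
        exact hO
      obtain ⟨p, hp, hp1, hp2, hp3, hp4⟩ :=
        (hcon.and_eventually (h1.and (h2.and (h3.and h4)))).exists
      push Not at hp
      obtain ⟨hu, hw⟩ := hp
      set F : Set OmegaStar := ({f p} ∪ ((fun x : Cell K L => f (x.c, p.2)) '' (s : Set (Cell K L)) ∪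
        (fun x : Cell K L => f (p.1, x.e)) '' (s : Set (Cell K L)))) \ {f (a, b)} with hF
      have hFfin : F.Finite := by
        apply Set.Finite.subset _ diff_subset
        exact (finite_singleton _).union ((s.finite_toSet.image _).union (s.finite_toSet.image _))
      obtain ⟨N1, hN1, hN1'⟩ := sep_finite hFfin (z := f (a, b)) (fun h => h.2 rfl)
      have hN : ∀ q, q ∈ F → q ∈ st O → q ∈ st (O \ (O ∩ N1)) := fun q hq hqO =>
        mem_st_diff.2 ⟨hqO, fun h => hN1' q hq (mem_st_inter.1 h).2⟩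
      refine ⟨⟨p.1, p.2, O, O ∩ N1, ∅⟩, ?_, ?_⟩
      · refine ⟨mem_st_inter.2 ⟨hO, hN1⟩, ?_, hu, hp2⟩
        exact hN _ ⟨Or.inl rfl, hw⟩ hp1
      · intro x hx
        refine ⟨biInter_subset_of_mem hx, ?_, ?_⟩
        · by_cases h : f (x.c, p.2) = f (a, b)
          · exact Or.inl h
          · exact Or.inr (hN _ ⟨Or.inr (Or.inl ⟨x, hx, rfl⟩), h⟩ (hp3 x hx))
        · by_cases h : f (p.1, x.e) = f (a, b)
          · exact Or.inl h
          · exact Or.inr (hN _ ⟨Or.inr (Or.inr ⟨x, hx, rfl⟩), h⟩ (hp4 x hx)))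
  obtain ⟨φ, hφ, h1 | h1⟩ := ramsey fun m n => f ((x m).c, (x n).e) = f ((x n).c, (x n).e)
  · obtain ⟨ψ, hψ, h2 | h2⟩ := ramsey fun m n =>
      f ((x (φ n)).c, (x (φ m)).e) = f ((x (φ n)).c, (x (φ n)).e)
    · set y : ℕ → Cell K L := fun n => x (φ (ψ n)) with hy
      have hφψ : ∀ m n, m < n → φ (ψ m) < φ (ψ n) := fun m n hmn => hφ (hψ hmn)
      have hU : ∀ m n, m < n → f ((y m).c, (y n).e) = f ((y n).c, (y n).e) := fun m n hmn =>
        h1 _ _ (hψ hmn)
      have hL : ∀ m n, m < n → f ((y n).c, (y m).e) = f ((y n).c, (y n).e) := fun m n hmn =>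
        h2 _ _ hmn
      have hOy : ∀ m n, m < n → (y n).O ⊆ (y m).N := fun m n hmn => (hxr _ _ (hφψ m n hmn)).1
      have hwy : ∀ n, f ((y n).c, (y n).e) ∈ st ((y n).O \ (y n).N) := fun n => (hxP _).2.1
      refine no_upper_lower hf (fun n => (y (2 * n)).c) (fun n => (y (2 * n + 1)).e)
        (⋃ n ∈ {n : ℕ | ∃ k, n = 2 * k + 1}, (y n).O \ (y n).N) ?_ ?_
      · intro i j hij
        show f ((y (2 * i)).c, (y (2 * j + 1)).e) ∈ _
        rw [hU _ _ (show 2 * i < 2 * j + 1 by omega)]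
        exact mem_union (V := fun n => (y n).O \ (y n).N) (hwy _) ⟨j, rfl⟩
      · intro i j hij
        show f ((y (2 * i)).c, (y (2 * j + 1)).e) ∉ _
        rw [hL _ _ (show 2 * j + 1 < 2 * i by omega)]
        intro hcon2
        refine not_both ?_ (hwy (2 * i)) hcon2
        rw [Set.disjoint_left]
        intro k hk hk'
        simp only [mem_iUnion] at hk'
        obtain ⟨n, ⟨l, hl⟩, hn⟩ := hk'
        exact Set.disjoint_left.1 (disj_G (O := fun n => (y n).O) (N := fun n => (y n).N) hOy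
          (show 2 * i ≠ n by omega)) hk hn
    · set y : ℕ → Cell K L := fun n => x (φ (ψ n)) with hy
      have hφψ : ∀ m n, m < n → φ (ψ m) < φ (ψ n) := fun m n hmn => hφ (hψ hmn)
      refine upper_case (f := f ∘ Prod.swap) (hf.comp continuous_swap) (c := fun n => (y n).e)
        (e := fun n => (y n).c) (O := fun n => (y n).O) (N := fun n => (y n).N) (z := f (a, b))
        (fun m n hmn => (hxr _ _ (hφψ m n hmn)).1) (fun n => (hxP _).2.1)
        (fun m n hmn => (hxr _ _ (hφψ m n hmn)).2.2) (fun m n hmn => h2 _ _ hmn)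
  · set y : ℕ → Cell K L := fun n => x (φ n) with hy
    exact upper_case hf (c := fun n => (y n).c)
      (e := fun n => (y n).e) (O := fun n => (y n).O) (N := fun n => (y n).N) (z := f (a, b))
      (fun m n hmn => (hxr _ _ (hφ hmn)).1) (fun n => (hxP _).2.1)
      (fun m n hmn => (hxr _ _ (hφ hmn)).2.1) (fun m n hmn => h1 _ _ hmn)

theorem step5 (hf : Continuous f) (a : K) (b : L) (hA : ∀ᶠ e in 𝓝 b, f (a, e) = f (a, b)) :
    ∀ᶠ p : K × L in 𝓝 (a, b), f p = f (p.1, b) := by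
  filter_upwards [step1 hf a b, step3 hf a b, step4 hf a b hA] with p h1 h2 h3
  rcases h1 with h | h | h
  · rw [h, h3 h]
  · rw [h, h2 h]
  · exact h.symm

theorem alternative (hf : Continuous f) (a : K) (b : L) :
    (∀ᶠ c in 𝓝 a, f (c, b) = f (a, b)) ∨ (∀ᶠ e in 𝓝 b, f (a, e) = f (a, b)) := by
  have h2 := step2 hf a b
  rw [nhds_prod_eq] at h2
  by_contra hcon
  push Not at hcon
  obtain ⟨hc1, hc2⟩ := hcon
  rw [eventually_prod_iff] at h2
  obtain ⟨pa, hpa, pb, hpb, hpp⟩ := h2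
  obtain ⟨c, hc, hca⟩ := (hc1.and_eventually hpa).exists
  apply hc2
  have h3 : ∀ᶠ e in 𝓝 b, f (a, e) ≠ f (c, b) := by
    have : Continuous fun e : L => f (a, e) := by fun_prop
    exact this.continuousAt.eventually_ne (Ne.symm hc)
  filter_upwards [hpb, h3] with e he hne
  rcases hpp hca he with h | h | h
  · exact absurd h hc
  · exact fun h' => h' h
  · exact absurd h.symm hne

/-- van Douwen, Farah: a continuous map from a product of two compact spaces to `ω*` depends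
locally on at most one coordinate. -/
theorem local_elementary (hf : Continuous f) (a : K) (b : L) :
    (∀ᶠ p : K × L in 𝓝 (a, b), f p = f (p.1, b)) ∨ (∀ᶠ p : K × L in 𝓝 (a, b), f p = f (a, p.2)) := by
  rcases alternative hf a b with h | h
  · right
    have h1 := step5 (f := f ∘ Prod.swap) (hf.comp continuous_swap) b a (by simpa using h)
    have h2 : Tendsto (Prod.swap : K × L → L × K) (𝓝 (a, b)) (𝓝 (b, a)) :=
      continuous_swap.continuousAt
    exact h2.eventually h1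
  · left
    exact step5 hf a b h

end main

end Pool.Agent.Lib.MP_975af5_gt
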